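import Mathlib
import Pool.Agent.H661R3.DC.Class
import Pool.Agent.H661R3.DC.MCM
import Pool.Agent.H993R3.DC.P1

/-! Countable Cohen–Macaulay type does not bound the dimension of `CM(R)`.

Definitions used in the statement (file `Pool/Agent/H661R3/DC/Defs.lean`): `IsMCM`, `Indec`,
`CountableCMType`, `Cls`, `CM`, `IsSyz1`, `IsSyz`, `addCls`, `brk`, `extCls`, `ball`, `single`,
`dimCls`. -/

set_option autoImplicit false

namespace Pool.Agent.Results.MP_0a5ef7_al.DimInfinite

open IsLocalRing Pool.Agent.H661R3.DC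

theorem ringKrullDim_RR {k : Type} [Field k] {σ : PowerSeries k} (hσ : Trans σ)
    [IsLocalRing (RR σ)] [IsDomain (RR σ)] : ringKrullDim (RR σ) = 1 := by
  rw [ringKrullDim_eq_one_iff_of_isLocalRing_isDomain]
  constructor
  · intro hf
    have h1 : maximalIdeal (RR σ) = ⊥ := by
      rw [← IsLocalRing.isField_iff_maximalIdeal_eq]; exact hf
    have h2 := tR_mem hσ
    rw [h1] at h2
    exact tR_ne_zero h2
  · intro x hx r hr
    obtain ⟨n, hn⟩ := exists_dvd_pow hσ hx
    have h1 : tR σ ^ n ∣ (r ^ 2) ^ n := pow_dvd_pow_of_dvd (sq_dvd hσ hr) n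
    refine ⟨2 * n, ?_⟩
    rw [pow_mul, Ideal.mem_span_singleton]
    exact hn.trans h1

/-- **A Cohen–Macaulay local ring of countable CM-representation type with `dim CM(R) = ∞`**
(negative answer to Q1), with arbitrary residue field. For every field `k` there is a
one-dimensional Noetherian local domain `R` with residue field `k`, whose maximal ideal is generated
by two elements, which is Cohen–Macaulay, has countable CM-representation type, and for which the
dimension of the subcategory `CM(R)` is infinite. -/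
theorem result (k : Type) [Field k] : ∃ (R : Type) (_ : CommRing R) (_ : IsLocalRing R),
    IsNoetherianRing R ∧ IsDomain R ∧ ringKrullDim R = 1 ∧ IsMCM R R ∧
    (∃ a b : R, maximalIdeal R = Ideal.span {a, b}) ∧
    Nonempty (ResidueField R ≃+* k) ∧ CountableCMType R ∧ dimCls R (CM R) = ⊤ := by
  obtain ⟨σ, -, hσ⟩ := Pool.Agent.H993R3.DC.exists_transcendental k
  have hσ' : Trans σ := hσ
  have i1 := isLocal_RR hσ'
  have i2 := isDomain_RR hσ'
  have i3 := noeth_RR hσ'
  have hd : ringKrullDim (RR σ) = 1 := ringKrullDim_RR hσ'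
  have hsq : ∀ r ∈ maximalIdeal (RR σ), ∃ k, tR σ ∣ r ^ k := fun r hr => ⟨2, sq_dvd hσ' hr⟩
  have hpow : ∀ r : RR σ, r ≠ 0 → ∃ n, r ∣ tR σ ^ n := fun r hr => exists_dvd_pow hσ' hr
  have htf : ∀ (M : Type) [AddCommGroup M] [Module (RR σ) M], IsMCM (RR σ) M →
      ∀ r : RR σ, r ≠ 0 → ∀ m : M, r • m = 0 → m = 0 := fun M _ _ h =>
    torsionFree_of_isMCM hd hsq hpow M h
  refine ⟨RR σ, inferInstance, i1, i3, i2, hd, ?_, ⟨_, _, max_eq hσ'⟩, residue hσ', ?_, ?_⟩
  · apply isMCM_of_torsionFree hd (tR_mem hσ') tR_ne_zero (primes hσ')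
    intro r hr m hm
    exact (mul_eq_zero.1 hm).resolve_left hr
  · refine ⟨fun n => ModuleCat.of (RR σ) (II σ n), ?_⟩
    intro M _ _ hM hI
    have := hM.1
    have := hI.1
    obtain ⟨n, hn⟩ := exists_equiv hσ' (htf M hM) hI.2
    exact ⟨n, hn⟩
  · apply dimCls_eq_top (t := tR σ)
    · intro G hG
      have := (show IsMCM (RR σ) G from hG).1
      exact exists_lift tR_ne_zero hpow G (htf G hG)
    · intro N
      refine ⟨ModuleCat.of (RR σ) (II σ (N + 1)), ?_, not_lift hσ' (N + 1) N (Nat.lt_succ_self N)⟩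
      show IsMCM (RR σ) (II σ (N + 1))
      apply isMCM_of_torsionFree hd (tR_mem hσ') tR_ne_zero (primes hσ')
      intro r hr m hm
      apply Subtype.ext
      exact (mul_eq_zero.1 (congrArg Subtype.val hm)).resolve_left hr

end Pool.Agent.Results.MP_0a5ef7_al.DimInfinite
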